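import Pool.Agent.J6H36.BSV.Defs2

/-!
# Module P1F of project BSV: the projective line has no homogeneous covers (final step)
-/

set_option autoImplicit false

universe u

namespace Pool.Agent.J6H53.BSVP1F

open Polynomial IntermediateField Pool.Agent.J6H36.BSV

/-- degrees in a determinant -/
lemma det_deg {k : Type u} [Field k] {N : ℕ} (C : Matrix (Fin N) (Fin N) k[X]) (m : ℕ)
    (a : Fin N → ℕ) (h : ∀ i j, C i j ≠ 0 → (C i j).natDegree + a j ≤ m) (h0 : C.det ≠ 0)
    (hd : N * m ≤ C.det.natDegree) : ∀ i, a i = 0 := by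
  classical
  have ham : ∀ i, a i ≤ m := by
    obtain ⟨σ, hσ⟩ : ∃ σ : Equiv.Perm (Fin N), ∏ i, C (σ i) i ≠ 0 := by
      by_contra hcon
      push Not at hcon
      apply h0
      rw [Matrix.det_apply]
      exact Finset.sum_eq_zero fun σ _ => by rw [hcon σ, smul_zero]
    intro i
    have h1 : C (σ i) i ≠ 0 := (Finset.prod_ne_zero_iff.1 hσ) i (Finset.mem_univ i)
    have h2 := h _ _ h1
    omega
  have hle : C.det.natDegree ≤ ∑ i, (m - a i) := by
    rw [Matrix.det_apply]
    refine Polynomial.natDegree_sum_le_of_forall_le _ _ fun σ _ => ?_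
    have h1 : (Equiv.Perm.sign σ • ∏ i, C (σ i) i).natDegree ≤ (∏ i, C (σ i) i).natDegree := by
      rcases Int.units_eq_one_or (Equiv.Perm.sign σ) with hs | hs
      · rw [hs, one_smul]
      · rw [hs, Units.neg_smul, one_smul, natDegree_neg]
    refine h1.trans ?_
    by_cases h2 : ∏ i, C (σ i) i = 0
    · rw [h2, natDegree_zero]; exact Nat.zero_le _
    · refine (natDegree_prod_le _ _).trans (Finset.sum_le_sum fun i _ => ?_)
      have h3 : C (σ i) i ≠ 0 := (Finset.prod_ne_zero_iff.1 h2) i (Finset.mem_univ i)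
      have h4 := h _ _ h3
      change (C (σ i) i).natDegree ≤ m - a i
      omega
  have hsum : ∑ i, (m - a i) + ∑ i, a i = N * m := by
    rw [← Finset.sum_add_distrib, Finset.sum_congr rfl fun i _ => Nat.sub_add_cancel (ham i)]
    simp
  have hz : ∑ i, a i = 0 := by omega
  intro i
  exact (Finset.sum_eq_zero_iff.1 hz) i (Finset.mem_univ i)

variable {K F : Type u} [Field K] [Field F] [Algebra K F]

open scoped IntermediateField.algebraAdjoinAdjoin in
/-- integral multiples -/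
lemma mult (t : F) (hfd : FiniteDimensional K⟮t⟯ F) (s : Finset F) :
    ∃ d : K[X], d ≠ 0 ∧ ∀ x ∈ s, IsIntegral (Algebra.adjoin K ({t} : Set F)) (aeval t d * x) := by
  obtain ⟨y, hy, H⟩ := exists_integral_multiples (Algebra.adjoin K ({t} : Set F)) K⟮t⟯ s
  have h1 : (y : F) ∈ (aeval t : K[X] →ₐ[K] F).range := by
    rw [← Algebra.adjoin_singleton_eq_range_aeval]
    exact y.2
  obtain ⟨d, hd⟩ := h1
  refine ⟨d, ?_, fun x hx => ?_⟩
  · rintro rfl
    apply hy
    apply Subtype.ext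
    rw [← hd]
    simp
  · have h2 := H x hx
    have h3 : y • x = aeval t d * x := by
      rw [Subalgebra.smul_def, smul_eq_mul, ← hd]
      rfl
    rwa [h3] at h2

lemma rev (t : F) (ht : t ≠ 0) (d : K[X]) :
    (t⁻¹) ^ d.natDegree * aeval t d ∈ Algebra.adjoin K ({t⁻¹} : Set F) := by
  let := invertibleOfNonzero ht
  have h1 := eval₂_reverse_mul_pow (algebraMap K F) t d
  rw [invOf_eq_inv] at h1
  have h2 : (t⁻¹) ^ d.natDegree * aeval t d = aeval (t⁻¹) d.reverse := by
    rw [aeval_def, aeval_def, ← h1]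
    have h3 : (t⁻¹) ^ d.natDegree * t ^ d.natDegree = 1 := by
      rw [← mul_pow, inv_mul_cancel₀ ht, one_pow]
    calc (t⁻¹) ^ d.natDegree * (eval₂ (algebraMap K F) t⁻¹ d.reverse * t ^ d.natDegree)
        = ((t⁻¹) ^ d.natDegree * t ^ d.natDegree) * eval₂ (algebraMap K F) t⁻¹ d.reverse := by ring
      _ = _ := by rw [h3, one_mul]
  rw [h2]
  exact aeval_mem_adjoin_singleton K _

lemma int_iota {t : F} {ι : F →ₐ[K] F} (hι : ι t = t⁻¹) {x : F}
    (hx : IsIntegral (Algebra.adjoin K ({t} : Set F)) x) :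
    IsIntegral (Algebra.adjoin K ({t⁻¹} : Set F)) (ι x) := by
  have h1 : ∀ y : Algebra.adjoin K ({t} : Set F),
      (ι.comp (Algebra.adjoin K ({t} : Set F)).val) y ∈ Algebra.adjoin K ({t⁻¹} : Set F) := by
    intro y
    have h2 : ι y ∈ (Algebra.adjoin K ({t} : Set F)).map ι := ⟨y, y.2, rfl⟩
    rw [AlgHom.map_adjoin, Set.image_singleton, hι] at h2
    exact h2
  exact IsIntegral.map_of_comp_eq
    ((ι.comp (Algebra.adjoin K ({t} : Set F)).val).codRestrict
      (Algebra.adjoin K ({t⁻¹} : Set F)) h1).toRingHom (ι : F →+* F) (by ext y; rfl) hx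

lemma discr_iota {t : F} (hfd : FiniteDimensional K⟮t⟯ F) {ι : F →ₐ[K] F} (hι : ι t = t⁻¹)
    {N : ℕ} (e : Fin N → F) (c : K) (h : Algebra.discr K⟮t⟯ e = algebraMap K K⟮t⟯ c) :
    Algebra.discr K⟮t⟯ (fun i => ι (e i)) = algebraMap K K⟮t⟯ c := by
  have hE : ∀ x ∈ K⟮t⟯, ι x ∈ K⟮t⟯ := by
    intro x hx
    have h1 : ι x ∈ (K⟮t⟯).map ι := ⟨x, hx, rfl⟩
    rw [IntermediateField.adjoin_map, Set.image_singleton, hι] at h1
    have h2 : K⟮t⁻¹⟯ ≤ K⟮t⟯ := by
      rw [adjoin_simple_le_iff]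
      exact inv_mem (mem_adjoin_simple_self K t)
    exact h2 h1
  have h2 : ∀ x ∈ K⟮t⟯, ι (ι x) = x := by
    intro x hx
    induction hx using IntermediateField.adjoin_induction with
    | mem x hx =>
      rw [Set.mem_singleton_iff] at hx
      rw [hx, hι, map_inv₀, hι, inv_inv]
    | algebraMap x => rw [AlgHom.commutes, AlgHom.commutes]
    | add x y _ _ hx hy => rw [map_add, map_add, hx, hy]
    | inv x _ hx => rw [map_inv₀, map_inv₀, hx]
    | mul x y _ _ hx hy => rw [map_mul, map_mul, hx, hy]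
  have hsurj : Function.Surjective ι := by
    let ψ : F →ₐ[K⟮t⟯] F :=
      { (ι.comp ι).toRingHom with commutes' := fun x => h2 x x.2 }
    have hψ : Function.Bijective ψ := Algebra.IsAlgebraic.algHom_bijective ψ
    intro x
    obtain ⟨y, hy⟩ := hψ.2 x
    exact ⟨ι y, hy⟩
  let e₂ : F ≃+* F := RingEquiv.ofBijective (ι : F →+* F) ⟨(ι : F →+* F).injective, hsurj⟩
  let e₁ : K⟮t⟯ ≃+* K⟮t⟯ :=
    { toFun := fun x => ⟨ι x, hE x x.2⟩
      invFun := fun x => ⟨ι x, hE x x.2⟩
      left_inv := fun x => Subtype.ext (h2 x x.2)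
      right_inv := fun x => Subtype.ext (h2 x x.2)
      map_mul' := fun x y => Subtype.ext (map_mul ι (x : F) y)
      map_add' := fun x y => Subtype.ext (map_add ι (x : F) y) }
  have htr : ∀ x, Algebra.trace K⟮t⟯ F (ι x) = e₁ (Algebra.trace K⟮t⟯ F x) := by
    intro x
    have h3 := Algebra.trace_eq_of_equiv_equiv e₁ e₂ (by ext y; rfl) x
    rw [h3, RingEquiv.apply_symm_apply]
    rfl
  have hM : Algebra.traceMatrix K⟮t⟯ (fun i => ι (e i)) =
      (e₁ : K⟮t⟯ →+* K⟮t⟯).mapMatrix (Algebra.traceMatrix K⟮t⟯ e) := by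
    ext1 i j
    rw [Algebra.traceMatrix_apply, Algebra.traceForm_apply, ← map_mul, htr]
    rfl
  rw [Algebra.discr_def, hM, ← RingHom.map_det, ← Algebra.discr_def, h]
  exact Subtype.ext (ι.commutes c)

theorem t_P1F : S_P1F.{u} := by
  classical
  intro hX hD hK hR K F _ _ _ _ t ht hfd hsep htr hι y
  obtain ⟨ι, hι⟩ := hι
  obtain ⟨N, e₀, h₀⟩ := hX K F t ht hfd hsep
  obtain ⟨e, a, he, hint, hdeg⟩ := hR hK K F t ht hfd N e₀ h₀
  obtain ⟨c₀, hc₀, hdisc⟩ := hD K F t ht hfd hsep htr N e he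
  have ht0 : t ≠ 0 := by
    rintro rfl
    exact ht isAlgebraic_zero
  obtain ⟨d, hd0, hd⟩ := mult t hfd (Finset.univ.image fun j => ι (e j))
  have hd' : ∀ j, IsIntegral (Algebra.adjoin K ({t} : Set F)) (aeval t d * ι (e j)) :=
    fun j => hd _ (Finset.mem_image_of_mem _ (Finset.mem_univ j))
  choose C hC using fun j => he.span _ (hd' j)
  have hC' : ∀ j i, C j i ≠ 0 → (C j i).natDegree + a i ≤ d.natDegree := by
    intro j
    apply hdeg (C j) d.natDegree
    rw [← hC j, ← mul_assoc]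
    have h1 : IsIntegral (Algebra.adjoin K ({t⁻¹} : Set F)) ((t⁻¹) ^ d.natDegree * aeval t d) :=
      isIntegral_algebraMap (x := (⟨_, rev t ht0 d⟩ : Algebra.adjoin K ({t⁻¹} : Set F)))
    exact h1.mul (int_iota hι (he.int j))
  obtain ⟨t', ht'⟩ : ∃ t' : K⟮t⟯, t' = AdjoinSimple.gen K t := ⟨_, rfl⟩
  have hcoe : ∀ p : K[X], algebraMap K⟮t⟯ F (aeval t' p) = aeval t p := by
    intro p
    rw [← aeval_algebraMap_apply, ht', AdjoinSimple.algebraMap_gen]
  have hinj : Function.Injective (aeval t' : K[X] →ₐ[K] K⟮t⟯) := by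
    rw [injective_iff_map_eq_zero]
    intro p hp
    have h1 := hcoe p
    rw [hp, map_zero] at h1
    exact (transcendental_iff.1 ht) p h1.symm
  have hdisc' := discr_iota hfd hι e c₀ hdisc
  have hdet : (Matrix.of C).det ^ 2 = (d ^ N) ^ 2 := by
    apply hinj
    have h1 : (((aeval t' : K[X] →ₐ[K] K⟮t⟯).toRingHom.mapMatrix (Matrix.of C)).map
        (algebraMap K⟮t⟯ F)).mulVec e = fun j => aeval t d * ι (e j) := by
      ext j
      rw [hC j, Matrix.mulVec, dotProduct]
      refine Finset.sum_congr rfl fun i _ => ?_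
      rw [← hcoe (C j i)]
      rfl
    have h2 : ((Matrix.diagonal (fun _ : Fin N => aeval t' d)).map
        (algebraMap K⟮t⟯ F)).mulVec (fun j => ι (e j)) = fun j => aeval t d * ι (e j) := by
      ext j
      rw [Matrix.diagonal_map (map_zero _), Matrix.mulVec_diagonal, hcoe]
    have h3 := Algebra.discr_of_matrix_mulVec (A := K⟮t⟯) e
      ((aeval t' : K[X] →ₐ[K] K⟮t⟯).toRingHom.mapMatrix (Matrix.of C))
    have h4 := Algebra.discr_of_matrix_mulVec (A := K⟮t⟯) (fun j => ι (e j))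
      (Matrix.diagonal (fun _ : Fin N => aeval t' d))
    rw [h1] at h3
    rw [h2, h3, hdisc, hdisc', Matrix.det_diagonal, ← RingHom.map_det] at h4
    have h5 : algebraMap K K⟮t⟯ c₀ ≠ 0 := by
      rw [Ne, map_eq_zero_iff _ (algebraMap K K⟮t⟯).injective]
      exact hc₀
    have h6 := mul_right_cancel₀ h5 h4
    rw [Finset.prod_const, Finset.card_univ, Fintype.card_fin] at h6
    rw [map_pow, map_pow, map_pow]
    exact h6
  have hdet0 : (Matrix.of C).det ≠ 0 := by
    intro h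
    rw [h] at hdet
    have h1 : (d ^ N) ^ 2 ≠ 0 := pow_ne_zero _ (pow_ne_zero _ hd0)
    exact h1 (by rw [← hdet]; ring)
  have hnd : N * d.natDegree ≤ (Matrix.of C).det.natDegree := by
    have h1 := congrArg natDegree hdet
    rw [natDegree_pow, natDegree_pow, natDegree_pow] at h1
    omega
  have ha := det_deg (Matrix.of C) d.natDegree a (fun i j h => hC' i j h) hdet0 hnd
  have hei : ∀ i, e i ∈ Set.range (algebraMap K F) := fun i =>
    hK K F t ht hfd (e i) (he.int i) (by have := hint i; rwa [ha i, pow_zero, one_mul] at this)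
  obtain ⟨d₂, hd₂, hy⟩ := mult t hfd {y}
  obtain ⟨c, hc⟩ := he.span _ (hy y (Finset.mem_singleton_self y))
  have hmem : ∀ p : K[X], aeval t p ∈ K⟮t⟯ := fun p => by
    rw [← hcoe]
    exact (aeval t' p).2
  have h1 : aeval t d₂ * y ∈ K⟮t⟯ := by
    rw [hc]
    refine sum_mem fun i _ => mul_mem (hmem _) ?_
    obtain ⟨z, hz⟩ := hei i
    rw [← hz]
    exact IntermediateField.algebraMap_mem _ z
  have h2 : aeval t d₂ ≠ 0 := fun h => hd₂ ((transcendental_iff.1 ht) d₂ h)
  have h3 : y = (aeval t d₂)⁻¹ * (aeval t d₂ * y) := by field_simp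
  rw [h3]
  exact mul_mem (inv_mem (hmem _)) h1

end Pool.Agent.J6H53.BSVP1F
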